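import Pool.Agent.Lib.MP_56aee0_co.KF.Base

/-!
# KF / Arc : sums over arcs of a cycle
-/

set_option autoImplicit false

namespace Pool.Agent.Lib.MP_56aee0_co.KF

open Pool.Agent.Lib.MP_56aee0_co

variable {n : ℕ}

theorem pt_eq_iff (hn : 0 < n) (i j : ℕ) : pt hn i = pt hn j ↔ i % n = j % n := by
  simp only [pt, Fin.mk.injEq]

/-- `pt (j + n) = pt j` -/
theorem pt_add_n (hn : 0 < n) (j : ℕ) : pt hn (j + n) = pt hn j := by
  rw [pt_eq_iff, Nat.add_mod_right]

/-- two points at distance between `q` and `n - q` are neither equal nor adjacent (`1 ≤ q`) -/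
theorem pt_far {q : ℕ} (hn : 0 < n) (hq : 1 ≤ q) {j s : ℕ} (h1 : q ≤ s) (h2 : s + q ≤ n) :
    pt hn j ≠ pt hn (j + s) ∧ ¬ (cpow n q).Adj (pt hn j) (pt hn (j + s)) := by
  have hr : j % n < n := Nat.mod_lt _ hn
  have hs : (j + s) % n = (j % n + s) % n := by
    exact (Nat.mod_add_mod j n s).symm
  have hs2 : (j + s) % n = if j % n + s < n then j % n + s else j % n + s - n := by
    rw [hs]
    split_ifs with h
    · exact Nat.mod_eq_of_lt h
    · rw [Nat.mod_eq_sub_mod (not_lt.mp h)]
      exact Nat.mod_eq_of_lt (by omega)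
  have hne : j % n ≠ (j + s) % n := by
    rw [hs2]
    split_ifs <;> omega
  refine ⟨fun h => hne ((pt_eq_iff hn _ _).1 h), ?_⟩
  rintro ⟨-, h | h⟩
  · have h' : ((j + s) % n + n - j % n) % n < q := h
    rw [hs2] at h'
    split_ifs at h' with hc
    · have e : j % n + s + n - j % n = s + n := by omega
      rw [e, Nat.add_mod_right, Nat.mod_eq_of_lt (by omega)] at h'
      omega
    · have e : j % n + s - n + n - j % n = s := by omega
      rw [e, Nat.mod_eq_of_lt (by omega)] at h'
      omega
  · have h' : (j % n + n - (j + s) % n) % n < q := h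
    rw [hs2] at h'
    split_ifs at h' with hc
    · have e : j % n + n - (j % n + s) = n - s := by omega
      rw [e, Nat.mod_eq_of_lt (by omega)] at h'
      omega
    · have e : j % n + n - (j % n + s - n) = (n - s) + n := by omega
      rw [e, Nat.add_mod_right, Nat.mod_eq_of_lt (by omega)] at h'
      omega

/-- two points of an arc shorter than `n` are different -/
theorem pt_ne (hn : 0 < n) {j s : ℕ} (h1 : 1 ≤ s) (h2 : s < n) : pt hn j ≠ pt hn (j + s) := by
  exact (pt_far hn (le_refl 1) h1 h2).1

/-- the whole cycle: `∑_{t < n} c (i + t) = ∑ v, c v` (the map `t ↦ pt (i + t)` is a bijection from `Finset.range n` to `Fin n`) -/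
theorem arc_full (hn : 0 < n) (c : Fin n → ℕ) (i : ℕ) :
    ∑ t ∈ Finset.range n, c (pt hn (i + t)) = ∑ v, c v := by
  have hinj : Set.InjOn (fun t => pt hn (i + t)) (Finset.range n : Set ℕ) := by
    intro s hs t ht hst
    rw [Finset.mem_coe, Finset.mem_range] at hs ht
    by_contra hne
    rcases lt_or_gt_of_ne hne with h | h
    · have := pt_ne hn (j := i + s) (s := t - s) (by omega) (by omega)
      rw [show i + s + (t - s) = i + t by omega] at this
      exact this hst
    · have := pt_ne hn (j := i + t) (s := s - t) (by omega) (by omega)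
      rw [show i + t + (s - t) = i + s by omega] at this
      exact this hst.symm
  have himg : (Finset.range n).image (fun t => pt hn (i + t)) = Finset.univ := by
    apply Finset.eq_univ_of_card
    rw [Finset.card_image_of_injOn hinj, Finset.card_range, Fintype.card_fin]
  rw [← himg, Finset.sum_image hinj]

theorem arc_le_sum (hn : 0 < n) (c : Fin n → ℕ) (i : ℕ) {a : ℕ} (ha : a < n) : arc hn c i a ≤ ∑ v, c v := by
  rw [← arc_full hn c i]
  refine Finset.sum_le_sum_of_subset ?_
  intro t ht
  rw [Finset.mem_range] at ht ⊢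
  omega

/-- `[i, i+a]` and `[i+a, i+a+b]` -/
theorem arc_add (hn : 0 < n) (c : Fin n → ℕ) (i a b : ℕ) :
    arc hn c i a + arc hn c (i + a) b = arc hn c i (a + b) + c (pt hn (i + a)) := by
  have e1 : arc hn c i (a + b) = ∑ t ∈ Finset.range (a + (b + 1)), c (pt hn (i + t)) := rfl
  have e2 : arc hn c i a = ∑ t ∈ Finset.range a, c (pt hn (i + t)) + c (pt hn (i + a)) :=
    Finset.sum_range_succ _ _
  have e3 : arc hn c (i + a) b = ∑ t ∈ Finset.range (b + 1), c (pt hn (i + (a + t))) :=
    Finset.sum_congr rfl fun t _ => by rw [Nat.add_assoc]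
  rw [e1, Finset.sum_range_add, e2, e3]
  omega

/-- an arc which goes once around: `[i, i + n + e]` (`e < n`) is the whole cycle and `[i, i + e]` -/
theorem arc_wrap (hn : 0 < n) (c : Fin n → ℕ) (i e : ℕ) :
    arc hn c i (n + e) = ∑ v, c v + arc hn c i e := by
  have e1 : arc hn c i (n + e) = ∑ t ∈ Finset.range (n + (e + 1)), c (pt hn (i + t)) := rfl
  rw [e1, Finset.sum_range_add, arc_full hn c i]
  refine congrArg _ (Finset.sum_congr rfl fun t _ => ?_)
  rw [show i + (n + t) = i + t + n by omega, pt_add_n]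

/-- if `c' v ≤ c v` for all `v ≠ pt h`, `pt h` in the arc `[i, i + a]`, `a < n`, and the total numbers are equal, then
the arc does not lose guards (the complement of the arc does not contain `pt h`) -/
theorem arc_mono (hn : 0 < n) {c c' : Fin n → ℕ} (hs : ∑ v, c v = ∑ v, c' v) (i : ℕ) {a e : ℕ} (he : e ≤ a)
    (ha : a < n) (h : ∀ v, v ≠ pt hn (i + e) → c' v ≤ c v) : arc hn c i a ≤ arc hn c' i a := by
  have key : ∀ d : Fin n → ℕ, ∑ v, d v = arc hn d i a +
      ∑ t ∈ Finset.range (n - (a + 1)), d (pt hn (i + (a + 1 + t))) := by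
    intro d
    have h1 := arc_full hn d i
    have e : n = (a + 1) + (n - (a + 1)) := by omega
    rw [← h1]
    have h2 : ∑ t ∈ Finset.range n, d (pt hn (i + t)) =
        ∑ t ∈ Finset.range ((a + 1) + (n - (a + 1))), d (pt hn (i + t)) := by rw [← e]
    rw [h2, Finset.sum_range_add]
    rfl
  have hle : ∑ t ∈ Finset.range (n - (a + 1)), c' (pt hn (i + (a + 1 + t))) ≤
      ∑ t ∈ Finset.range (n - (a + 1)), c (pt hn (i + (a + 1 + t))) := by
    refine Finset.sum_le_sum fun t ht => h _ ?_
    rw [Finset.mem_range] at ht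
    have := pt_ne hn (j := i + e) (s := a + 1 + t - e) (by omega) (by omega)
    rw [show i + e + (a + 1 + t - e) = i + (a + 1 + t) by omega] at this
    exact this.symm
  have k1 := key c
  have k2 := key c'
  omega

end Pool.Agent.Lib.MP_56aee0_co.KF
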