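import Mathlib

/-!
# KF / Arith : the arithmetic of the numbers `M a`

PROOF. In the integers put `f a = M a - k`, `Φ a = n f a - N a`. Suppose `q N < n k`. Then
`Φ (n-q) ≤ n (N - k) - N (n - q) = q N - n k < 0` (`M (n-q) ≤ N`). By (B) with `a = b = n - q`:
`2 f (n-q) ≥ f (n-2q) + N`, so `Φ (n-2q) ≤ 2 Φ (n-q) < 0`. Let `a0 ∈ {0, …, n-q}` have the smallest `Φ a0`
(`Finset.exists_min_image`). If `a0 ≥ q`: (B) with `a = a0`, `b = n - q` gives `f a0 + f (n-q) ≥ f (a0 - q) + N`, so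
`Φ (a0 - q) ≤ Φ a0 + Φ (n-q) < Φ a0`. If `a0 < q`: (A) with `a = a0`, `b = n - 2q` gives
`Φ (a0 + n - 2q) ≤ Φ a0 + Φ (n-2q) < Φ a0`, and `a0 + n - 2q ≤ n - q`. Contradiction in both cases.
-/

set_option autoImplicit false

namespace Pool.Agent.Lib.MP_56aee0_co.KF

theorem arith {n q k N : ℕ} (hq : 1 ≤ q) (hn : 2 * q ≤ n) (M : ℕ → ℕ)
    (hM : ∀ a, a < n → M a ≤ N)
    (hA : ∀ a b, a + b < n → M (a + b) + k ≤ M a + M b)
    (hB : ∀ a b, a + q ≤ n → b + q ≤ n → n ≤ a + b → M (a + b - n) + N + k ≤ M a + M b) :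
    n * k ≤ q * N := by
  by_contra hcon
  have hcon1 : q * N < n * k := Nat.lt_of_not_le hcon
  have hcon' : (q : ℤ) * N < n * k := by exact_mod_cast hcon1
  have hqn : q ≤ n := by omega
  have hc1 : ((n - q : ℕ) : ℤ) = (n : ℤ) - q := by
    rw [Nat.cast_sub hqn]
  have hc2 : ((n - 2 * q : ℕ) : ℤ) = (n : ℤ) - 2 * q := by
    rw [Nat.cast_sub hn]; push_cast; ring
  have hn0 : (0 : ℤ) ≤ n := by positivity
  obtain ⟨F, hF⟩ : ∃ F : ℕ → ℤ, ∀ a, F a = (n : ℤ) * ((M a : ℤ) - k) - N * a := ⟨_, fun _ => rfl⟩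
  have h1 : F (n - q) < 0 := by
    have h' : (M (n - q) : ℤ) ≤ N := by exact_mod_cast hM (n - q) (by omega)
    have h2 : (n : ℤ) * ((M (n - q) : ℤ) - k) ≤ n * ((N : ℤ) - k) :=
      mul_le_mul_of_nonneg_left (by linarith) hn0
    rw [hF, hc1]
    nlinarith
  have hBF : ∀ a b, a + q ≤ n → b + q ≤ n → n ≤ a + b → F (a + b - n) ≤ F a + F b := by
    intro a b ha hb hab
    have h := hB a b ha hb hab
    have h' : (M (a + b - n) : ℤ) + N + k ≤ M a + M b := by exact_mod_cast h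
    have hc3 : ((a + b - n : ℕ) : ℤ) = (a : ℤ) + b - n := by
      rw [Nat.cast_sub hab]; push_cast; ring
    have h2 : (n : ℤ) * ((M (a + b - n) : ℤ) + N + k) ≤ n * ((M a : ℤ) + M b) :=
      mul_le_mul_of_nonneg_left h' hn0
    rw [hF, hF, hF, hc3]
    nlinarith
  have hAF : ∀ a b, a + b < n → F (a + b) ≤ F a + F b := by
    intro a b hab
    have h' : (M (a + b) : ℤ) + k ≤ M a + M b := by exact_mod_cast hA a b hab
    have h2 : (n : ℤ) * ((M (a + b) : ℤ) + k) ≤ n * ((M a : ℤ) + M b) :=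
      mul_le_mul_of_nonneg_left h' hn0
    rw [hF, hF, hF]
    push_cast
    nlinarith
  have h2 : F (n - 2 * q) < 0 := by
    have h := hBF (n - q) (n - q) (by omega) (by omega) (by omega)
    have he : n - q + (n - q) - n = n - 2 * q := by omega
    rw [he] at h
    linarith
  obtain ⟨a0, ha0, hmin⟩ := Finset.exists_min_image (Finset.range (n - q + 1)) F
    ⟨0, Finset.mem_range.2 (by omega)⟩
  have ha0' : a0 < n - q + 1 := Finset.mem_range.1 ha0
  rcases Nat.lt_or_ge a0 q with hlt | hge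
  · have h := hAF a0 (n - 2 * q) (by omega)
    have h3 := hmin (a0 + (n - 2 * q)) (Finset.mem_range.2 (by omega))
    linarith
  · have h := hBF a0 (n - q) (by omega) (by omega) (by omega)
    have he : a0 + (n - q) - n = a0 - q := by omega
    rw [he] at h
    have h3 := hmin (a0 - q) (Finset.mem_range.2 (by omega))
    linarith

end Pool.Agent.Lib.MP_56aee0_co.KF
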