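import Mathlib
import Pool.Agent.Lib.MP_56aee0_co.Edn

/-!
# The `k`-fold eternal domination number and powers of cycles: definitions

A configuration is a function `c : V → ℕ` (the number of guards on each vertex). In the `k`-fold game an attack on a
vertex `h` with fewer than `k` guards is answered by a guard which moves from a neighbour of `h` to `h`.
-/

set_option autoImplicit false

namespace Pool.Agent.Lib.MP_56aee0_co.KF

open Pool.Agent.Lib.MP_56aee0_co

variable {V : Type} [Fintype V] [DecidableEq V]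

/-- one guard moves from `u` to `h` -/
def mv (c : V → ℕ) (u h : V) : V → ℕ :=
  fun v => if v = h then c h + 1 else if v = u then c u - 1 else c v

/-- `C` is a `k`-fold eternal family with `N` guards -/
def KE (H : SimpleGraph V) (k N : ℕ) (C : Set (V → ℕ)) : Prop :=
  ∀ c ∈ C, ∑ v, c v = N ∧ ∀ h, c h < k → ∃ u, H.Adj u h ∧ 0 < c u ∧ mv c u h ∈ C

/-- the `k`-fold eternal domination number -/
noncomputable def kedn (H : SimpleGraph V) (k : ℕ) : ℕ :=
  sInf {N : ℕ | ∃ C : Set (V → ℕ), C.Nonempty ∧ KE H k N C}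

theorem kedn_le {H : SimpleGraph V} {k N : ℕ} {C : Set (V → ℕ)} (h0 : C.Nonempty) (h : KE H k N C) :
    kedn H k ≤ N :=
  Nat.sInf_le ⟨C, h0, h⟩

theorem kedn_exists (H : SimpleGraph V) (k : ℕ) :
    ∃ C : Set (V → ℕ), C.Nonempty ∧ KE H k (kedn H k) C := by
  have h : ({N : ℕ | ∃ C : Set (V → ℕ), C.Nonempty ∧ KE H k N C}).Nonempty := by
    refine ⟨∑ _v : V, k, {fun _ => k}, ⟨_, rfl⟩, ?_⟩
    rintro c rfl
    exact ⟨rfl, fun h hh => absurd hh (lt_irrefl _)⟩
  exact Nat.sInf_mem h

/-- the power of a cycle: the vertices `x ≠ y` of `Fin n` are adjacent iff their cyclic distance is less than `q` -/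
def cpow (n q : ℕ) : SimpleGraph (Fin n) where
  Adj x y := x ≠ y ∧ ((y.val + n - x.val) % n < q ∨ (x.val + n - y.val) % n < q)
  symm := ⟨fun _ _ h => ⟨h.1.symm, h.2.symm⟩⟩
  loopless := ⟨fun _ h => h.1 rfl⟩

/-- the vertex `j mod n` -/
def pt {n : ℕ} (hn : 0 < n) (j : ℕ) : Fin n := ⟨j % n, Nat.mod_lt _ hn⟩

/-- the number of guards on the arc of the `a + 1` vertices `i, i + 1, …, i + a` -/
def arc {n : ℕ} (hn : 0 < n) (c : Fin n → ℕ) (i a : ℕ) : ℕ := ∑ t ∈ Finset.range (a + 1), c (pt hn (i + t))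

end Pool.Agent.Lib.MP_56aee0_co.KF
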