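import Pool.Agent.Lib.MP_56aee0_co.KF.Base

/-!
# KF / Cov : `cpow n 2` is the cycle; a clique cover
-/

set_option autoImplicit false

namespace Pool.Agent.Lib.MP_56aee0_co.KF

open Pool.Agent.Lib.MP_56aee0_co

private theorem cov_mod {n x y : ℕ} (hx : x < n) (hy : y < n) :
    (y + n - x) % n = if x ≤ y then y - x else y + n - x := by
  split_ifs with h
  · have h1 : y + n - x = (y - x) + n := by omega
    rw [h1, Nat.add_mod_right, Nat.mod_eq_of_lt (by omega)]
  · rw [Nat.mod_eq_of_lt (by omega)]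

private theorem cov_sub {n : ℕ} (x y : Fin (n + 1)) :
    (x - y = 1 ∧ n ≠ 0) ↔ ((x.val + (n + 1) - y.val) % (n + 1) = 1 ∧ n ≠ 0) := by
  constructor
  · rintro ⟨h, h0⟩
    refine ⟨?_, h0⟩
    have h1 : (n + 1 - y.val + x.val) % (n + 1) = 1 % (n + 1) := congrArg Fin.val h
    rw [Nat.mod_eq_of_lt (show 1 < n + 1 by omega)] at h1
    have h2 : n + 1 - y.val + x.val = x.val + (n + 1) - y.val := by
      have := y.2
      omega
    rw [← h2]
    exact h1
  · rintro ⟨h, h0⟩
    refine ⟨?_, h0⟩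
    apply Fin.ext
    have h2 : n + 1 - y.val + x.val = x.val + (n + 1) - y.val := by
      have := y.2
      omega
    show (n + 1 - y.val + x.val) % (n + 1) = 1 % (n + 1)
    rw [h2, Nat.mod_eq_of_lt (show 1 < n + 1 by omega)]
    exact h

theorem cpow_two {n : ℕ} (hn : 4 ≤ n) : cpow n 2 = SimpleGraph.cycleGraph n := by
  obtain ⟨m, rfl⟩ : ∃ m, n = m + 1 := ⟨n - 1, by omega⟩
  ext x y
  have h0 : m ≠ 0 := by omega
  have hx := x.2
  have hy := y.2
  have hxy := cov_sub x y
  have hyx := cov_sub y x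
  rw [SimpleGraph.cycleGraph_eq_circulantGraph, SimpleGraph.circulantGraph_adj]
  have e1 := cov_mod hx hy
  have e2 := cov_mod hy hx
  show (x ≠ y ∧ ((y.val + (m + 1) - x.val) % (m + 1) < 2 ∨
    (x.val + (m + 1) - y.val) % (m + 1) < 2)) ↔ _
  constructor
  · rintro ⟨hne, h⟩
    have hne' : x.val ≠ y.val := fun h => hne (Fin.ext h)
    refine ⟨hne, ?_⟩
    rcases h with h | h
    · right
      refine (hyx.2 ⟨?_, h0⟩).1
      rw [e1] at h ⊢
      split_ifs at h ⊢ <;> omega
    · left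
      refine (hxy.2 ⟨?_, h0⟩).1
      rw [e2] at h ⊢
      split_ifs at h ⊢ <;> omega
  · rintro ⟨hne, h⟩
    refine ⟨hne, ?_⟩
    rcases h with h | h
    · right
      have := (hxy.1 ⟨h, h0⟩).1
      omega
    · left
      have := (hyx.1 ⟨h, h0⟩).1
      omega

/-- the cliques `{0, …, q-1}, {q, …, 2q-1}, …`: `edn_le_cover` with `c v = v / q` -/
theorem edn_cpow_le {n q b r : ℕ} (hq : 1 ≤ q) (hr : r ≤ q) (hn : n = b * q + r) : edn (cpow n q) ≤ b + 1 := by
  have hc : ∀ v : Fin n, v.val / q < b + 1 := by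
    intro v
    have hv := v.2
    rw [Nat.div_lt_iff_lt_mul (by omega)]
    have h1 : (b + 1) * q = b * q + q := by ring
    omega
  refine edn_le_cover (cpow n q) (fun v => ⟨v.val / q, hc v⟩) fun u v huv hne => ?_
  have h1 : u.val / q = v.val / q := congrArg Fin.val huv
  have hu := u.2
  have hv := v.2
  have h2 := Nat.div_add_mod u.val q
  have h3 := Nat.div_add_mod v.val q
  have h4 := Nat.mod_lt u.val (show 0 < q by omega)
  have h5 := Nat.mod_lt v.val (show 0 < q by omega)
  rw [h1] at h2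
  refine ⟨hne, ?_⟩
  rcases Nat.le_total u.val v.val with h | h
  · left
    rw [cov_mod hu hv, if_pos h]
    omega
  · right
    rw [cov_mod hv hu, if_pos h]
    omega

end Pool.Agent.Lib.MP_56aee0_co.KF
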