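import Pool.Agent.Lib.MP_56aee0_co.KF.Base

/-!
# KF / Prod : from an eternal family of `H □ G` to a `k`-fold eternal family of `H`, `k = edn G`

PROOF. Take the family `F` of `edn_exists (H.boxProd G)`, `N = edn (H.boxProd G)`. For a state `D` put
`cnt D h = |{y | (h, y) ∈ D}|`. The family `C = {cnt D | D ∈ F}` is nonempty, `∑ h, cnt D h = |D| = N`.
Let `D ∈ F`, `cnt D h < k = edn G`. Let `R` be the set of the `D' ∈ F` which agree with `D` outside the layer `h`
(`∀ h' y, h' ≠ h → ((h', y) ∈ D' ↔ (h', y) ∈ D)`); all have `cnt D' h = cnt D h`. If every attack `(h, y)` on every state of `R` had an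
answer inside the layer `h` (from `(h, y')`, `y' = y` or `G.Adj y' y`, new state in `F`, hence in `R`), then the traces `{y | (h, y) ∈ D'}`
would be an eternal family of `G` with `cnt D h < edn G` guards, a contradiction to `edn_le`. So there are `D1 ∈ R` and `y` without an
answer inside the layer; the answer given by `F` comes from `(u, y) ∈ D1` with `H.Adj u h`, and `(h, y) ∉ D1`. The new state
`D2 = insert (h, y) (D1.erase (u, y)) ∈ F` has `cnt D2 = mv (cnt D) u h`, and `cnt D u > 0` (`(u, y) ∈ D`, as `u ≠ h`).
-/

set_option autoImplicit false

namespace Pool.Agent.Lib.MP_56aee0_co.KF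

open Pool.Agent.Lib.MP_56aee0_co

variable {V W : Type} [Fintype V] [DecidableEq V] [Fintype W] [DecidableEq W]

/-- the trace of a state on the layer of `h` -/
private def prodT (D : Finset (V × W)) (h : V) : Finset W :=
  Finset.univ.filter fun y => (h, y) ∈ D

omit [Fintype V] in
private theorem prod_mem (D : Finset (V × W)) (h : V) (y : W) : y ∈ prodT D h ↔ (h, y) ∈ D := by
  simp [prodT]

private theorem prod_sum (D : Finset (V × W)) : ∑ h, (prodT D h).card = D.card := by
  rw [Finset.card_eq_sum_card_fiberwise (s := D) (f := fun p : V × W => p.1) (t := Finset.univ)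
    (fun p _ => Finset.mem_coe.2 (Finset.mem_univ _))]
  refine Finset.sum_congr rfl fun h _ => ?_
  refine Finset.card_bij (fun y _ => (h, y)) ?_ ?_ ?_
  · intro y hy
    rw [prod_mem] at hy
    rw [Finset.mem_filter]
    exact ⟨hy, rfl⟩
  · intro y _ y' _ e
    exact congrArg Prod.snd e
  · rintro ⟨a, b⟩ hp
    rw [Finset.mem_filter] at hp
    obtain ⟨hp1, hp2⟩ := hp
    have hp3 : a = h := hp2
    subst hp3
    exact ⟨b, (prod_mem _ _ _).2 hp1, rfl⟩

/-- only the layer `h` can be different -/
private theorem prod_card {D D' : Finset (V × W)} {h : V} (hc : D'.card = D.card)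
    (hR : ∀ h', h' ≠ h → ∀ y, (h', y) ∈ D' ↔ (h', y) ∈ D) :
    (prodT D' h).card = (prodT D h).card := by
  have h1 : ∀ h', h' ≠ h → prodT D' h' = prodT D h' := by
    intro h' hh
    ext y
    rw [prod_mem, prod_mem]
    exact hR h' hh y
  rw [← prod_sum, ← prod_sum, ← Finset.add_sum_erase _ _ (Finset.mem_univ h),
    ← Finset.add_sum_erase _ (fun h' => (prodT D h').card) (Finset.mem_univ h)] at hc
  have h2 : ∑ h' ∈ Finset.univ.erase h, (prodT D' h').card =
      ∑ h' ∈ Finset.univ.erase h, (prodT D h').card :=
    Finset.sum_congr rfl fun h' hh => by rw [h1 h' (Finset.ne_of_mem_erase hh)]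
  rw [h2] at hc
  exact Nat.add_right_cancel hc

theorem kedn_le_edn (H : SimpleGraph V) (G : SimpleGraph W) : kedn H (edn G) ≤ edn (H.boxProd G) := by
  classical
  obtain ⟨F, ⟨D0, hD0⟩, hF⟩ := edn_exists (H.boxProd G)
  refine kedn_le (C := {c | ∃ D ∈ F, c = fun h => (prodT D h).card}) ⟨_, D0, hD0, rfl⟩ ?_
  rintro c ⟨D, hD, rfl⟩
  refine ⟨(prod_sum D).trans (hF D hD).1, fun h hh => ?_⟩
  by_contra hcon
  -- the traces form an eternal family
  have key : edn G ≤ (prodT D h).card := by
    refine edn_le (F := {X | ∃ D' ∈ F, (∀ h', h' ≠ h → ∀ y, (h', y) ∈ D' ↔ (h', y) ∈ D) ∧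
      X = prodT D' h}) ⟨prodT D h, D, hD, fun _ _ _ => Iff.rfl, rfl⟩ ?_
    rintro X ⟨D', hD', hR, rfl⟩
    have hcard : (prodT D' h).card = (prodT D h).card :=
      prod_card ((hF D' hD').1.trans (hF D hD).1.symm) hR
    refine ⟨hcard, fun y => ?_⟩
    by_cases hy : (h, y) ∈ D'
    · refine ⟨y, (prod_mem _ _ _).2 hy, Or.inl rfl, D', hD', hR, ?_⟩
      exact Finset.insert_erase ((prod_mem _ _ _).2 hy)
    · obtain ⟨⟨a, b⟩, hab, hadj, hnew⟩ := (hF D' hD').2 (h, y)
      rcases hadj with he | he
      · exact absurd (he ▸ hab) hy
      · rw [SimpleGraph.boxProd_adj] at he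
        rcases he with ⟨he, hb⟩ | ⟨he, ha⟩
        · -- the guard comes from another layer
          exfalso
          have he' : H.Adj a h := he
          have hb' : b = y := hb
          subst hb'
          have hah : a ≠ h := he'.ne
          have haD : (a, b) ∈ D := (hR a hah b).1 hab
          refine hcon ⟨a, he', Finset.card_pos.2 ⟨b, (prod_mem _ _ _).2 haD⟩,
            insert (h, b) (D'.erase (a, b)), hnew, ?_⟩
          funext v
          unfold mv
          by_cases hv : v = h
          · subst hv
            rw [if_pos rfl]
            have e1 : prodT (insert (v, b) (D'.erase (a, b))) v = insert b (prodT D' v) := by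
              ext x
              rw [prod_mem, Finset.mem_insert, Finset.mem_insert, prod_mem, Finset.mem_erase,
                Prod.ext_iff]
              constructor
              · rintro (h1 | h1)
                · exact Or.inl h1.2
                · exact Or.inr h1.2
              · rintro (h1 | h1)
                · exact Or.inl ⟨rfl, h1⟩
                · refine Or.inr ⟨fun h2 => hah ?_, h1⟩
                  exact (congrArg Prod.fst h2).symm
            rw [e1, Finset.card_insert_of_notMem (fun h1 => hy ((prod_mem _ _ _).1 h1)), hcard]
          · rw [if_neg hv]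
            by_cases hva : v = a
            · subst hva
              rw [if_pos rfl]
              have e1 : prodT (insert (h, b) (D'.erase (v, b))) v = (prodT D v).erase b := by
                ext x
                rw [prod_mem, Finset.mem_insert, Finset.mem_erase, Finset.mem_erase, prod_mem,
                  hR v hv x]
                constructor
                · rintro (h1 | h1)
                  · exact absurd (congrArg Prod.fst h1) hv
                  · exact ⟨fun h2 => h1.1 (by rw [h2]), h1.2⟩
                · rintro ⟨h1, h2⟩
                  exact Or.inr ⟨fun h3 => h1 (congrArg Prod.snd h3), h2⟩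
              rw [e1, Finset.card_erase_of_mem ((prod_mem _ _ _).2 haD)]
            · rw [if_neg hva]
              have e1 : prodT (insert (h, b) (D'.erase (a, b))) v = prodT D v := by
                ext x
                rw [prod_mem, Finset.mem_insert, Finset.mem_erase, prod_mem, hR v hv x]
                constructor
                · rintro (h1 | h1)
                  · exact absurd (congrArg Prod.fst h1) hv
                  · exact h1.2
                · intro h1
                  exact Or.inr ⟨fun h3 => hva (congrArg Prod.fst h3), h1⟩
              rw [e1]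
        · -- the guard comes from the layer
          have he' : G.Adj b y := he
          have ha' : a = h := ha
          subst ha'
          refine ⟨b, (prod_mem _ _ _).2 hab, Or.inr he',
            insert (a, y) (D'.erase (a, b)), hnew, ?_, ?_⟩
          · intro h' hh' x
            rw [Finset.mem_insert, Finset.mem_erase, ← hR h' hh' x]
            constructor
            · rintro (h1 | h1)
              · exact absurd (congrArg Prod.fst h1) hh'
              · exact h1.2
            · intro h1
              exact Or.inr ⟨fun h3 => hh' (congrArg Prod.fst h3), h1⟩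
          · ext x
            rw [prod_mem, Finset.mem_insert, Finset.mem_insert, Finset.mem_erase, Finset.mem_erase,
              prod_mem]
            constructor
            · rintro (h1 | ⟨h1, h2⟩)
              · exact Or.inl (by rw [h1])
              · exact Or.inr ⟨fun h3 => h1 (congrArg Prod.snd h3), h2⟩
            · rintro (h1 | ⟨h1, h2⟩)
              · exact Or.inl (congrArg Prod.snd h1)
              · exact Or.inr ⟨fun h3 => h1 (by rw [h3]), h2⟩
  exact absurd hh (not_lt.2 key)

end Pool.Agent.Lib.MP_56aee0_co.KF
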