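import Pool.Agent.Lib.MP_56aee0_co.KF.MainK
import Pool.Agent.Lib.MP_56aee0_co.KF.Prod
import Pool.Agent.Lib.MP_56aee0_co.KF.Cov

/-!
# KF / FinalK : assembly
-/

set_option autoImplicit false

namespace Pool.Agent.Lib.MP_56aee0_co.KF

open Pool.Agent.Lib.MP_56aee0_co

variable {W : Type} [Fintype W] [DecidableEq W]

theorem edn_cpow_prod {n q : ℕ} (hq : 1 ≤ q) (hn : 2 * q ≤ n) (G : SimpleGraph W) :
    n * edn G ≤ q * edn ((cpow n q).boxProd G) :=
  (kedn_cpow hq hn (edn G)).trans (Nat.mul_le_mul_left q (kedn_le_edn (cpow n q) G))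

/-- `edn (cpow n q) ≤ b + 1` and `(b q + r) k ≤ q T`, `(q - r) k < q` give `(b + 1) k ≤ T`: otherwise
`T + 1 ≤ (b + 1) k`, so `q T + q ≤ q (b + 1) k`, `(b q + r) k + q ≤ (b q + q) k`, `q ≤ (q - r) k`. -/
theorem q1_cpow {n q b r : ℕ} (hq : 1 ≤ q) (hr : r ≤ q) (hn : n = b * q + r) (hb : 2 * q ≤ n)
    (G : SimpleGraph W) (hk : (q - r) * edn G < q) :
    edn (cpow n q) * edn G ≤ edn ((cpow n q).boxProd G) := by
  have h1 : n * edn G ≤ q * edn ((cpow n q).boxProd G) := edn_cpow_prod hq hb G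
  have h2 : edn (cpow n q) ≤ b + 1 := edn_cpow_le hq hr hn
  generalize edn ((cpow n q).boxProd G) = T at *
  generalize edn (cpow n q) = e at *
  generalize edn G = k at *
  obtain ⟨s, hs⟩ := Nat.exists_eq_add_of_le hr
  have hs2 : q - r = s := by omega
  rw [hs2] at hk
  refine (Nat.mul_le_mul_right k h2).trans ?_
  by_contra hlt
  have hlt2 : T + 1 ≤ (b + 1) * k := by omega
  have h3 : q * (T + 1) ≤ q * ((b + 1) * k) := Nat.mul_le_mul_left q hlt2
  have h4 : q * ((b + 1) * k) = n * k + s * k := by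
    rw [hn]
    have : q * ((b + 1) * k) = b * q * k + q * k := by ring
    rw [this]
    nth_rewrite 2 [hs]
    ring
  have h5 : q * (T + 1) = q * T + q := by ring
  omega

end Pool.Agent.Lib.MP_56aee0_co.KF
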