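import Pool.Agent.Lib.MP_56aee0_co.KF.Base

/-!
# KF / Force : attack one vertex until it has at least `k` guards
-/

set_option autoImplicit false

namespace Pool.Agent.Lib.MP_56aee0_co.KF

open Pool.Agent.Lib.MP_56aee0_co

variable {V : Type} [Fintype V] [DecidableEq V]

/-- Induction on `k - c h`: if `k ≤ c h` take `c' = c`. Otherwise the answer `u` (adjacent to `h`, so `u ≠ h`) gives
`c1 = mv c u h ∈ C` with `c1 h = c h + 1`, `c1 v ≤ c v` for `v ≠ h`, `c1 v = c v` for `v ≠ h` not adjacent to `h`. -/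
theorem force {H : SimpleGraph V} {k N : ℕ} {C : Set (V → ℕ)} (hC : KE H k N C) {c : V → ℕ} (hc : c ∈ C)
    (h : V) : ∃ c' ∈ C, k ≤ c' h ∧ (∀ v, v ≠ h → c' v ≤ c v) ∧ (∀ v, v ≠ h → ¬ H.Adj v h → c' v = c v) := by
  obtain ⟨m, hm⟩ : ∃ m, k - c h = m := ⟨_, rfl⟩
  induction m generalizing c with
  | zero => exact ⟨c, hc, by omega, fun v _ => le_rfl, fun v _ _ => rfl⟩
  | succ m ih =>
    obtain ⟨u, hu, hcu, hmv⟩ := (hC c hc).2 h (by omega)
    have h1 : mv c u h h = c h + 1 := if_pos rfl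
    have h2 : ∀ v, v ≠ h → mv c u h v = if v = u then c u - 1 else c v := fun v hv => if_neg hv
    have h3 : ∀ v, v ≠ h → mv c u h v ≤ c v := by
      intro v hv
      rw [h2 v hv]
      split_ifs with h4
      · rw [h4]
        exact Nat.sub_le _ _
      · exact le_rfl
    have h5 : ∀ v, v ≠ h → ¬ H.Adj v h → mv c u h v = c v := by
      intro v hv hn
      rw [h2 v hv, if_neg]
      rintro rfl
      exact hn hu
    obtain ⟨c', hc', e1, e2, e3⟩ := ih hmv (by rw [h1]; omega)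
    exact ⟨c', hc', e1, fun v hv => (e2 v hv).trans (h3 v hv), fun v hv hn => by
      rw [e3 v hv hn, h5 v hv hn]⟩

end Pool.Agent.Lib.MP_56aee0_co.KF
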