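import Pool.Agent.Lib.MP_56aee0_co.KF.Force
import Pool.Agent.Lib.MP_56aee0_co.KF.Arc
import Pool.Agent.Lib.MP_56aee0_co.KF.Arith

/-!
# KF / MainK : the `k`-fold number of the power of a cycle

PROOF of `ke_bound`. `M a := sSup {s | ∃ c ∈ C, ∃ i, s = arc hn c i a}`. For `a < n` this set is bounded by `N` (`arc_le_sum`) and not
empty, so `arc hn c i a ≤ M a ≤ N` for `c ∈ C`, and `M a` is attained (`Nat.sSup_mem`).
(A) `a + b < n`: take `c ∈ C`, `i` with `arc c i (a+b) = M (a+b)`; `force` at `h = pt (i + a)` gives `c' ∈ C`;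
`arc c' i (a+b) ≥ arc c i (a+b)` (`arc_mono`, the totals are both `N`); `arc_add`:
`M a + M b ≥ arc c' i a + arc c' (i+a) b = arc c' i (a+b) + c' h ≥ M (a+b) + k`.
(B) `a, b ≤ n - q`, `n ≤ a + b`: put `e = a + b - n`; take `c ∈ C`, `i` with `arc c i e = M e` (`e < n`); `force` at `h = pt (i + a)`. For `t ≤ e`
the point `pt (i + t)` has the distance `a - t` from `h`, `q ≤ n - b = a - e ≤ a - t` and `a - t ≤ a ≤ n - q`, so by `pt_far` (with `j = i + t`,
`s = a - t`) it is neither equal nor adjacent to `h`: `c' (pt (i+t)) = c (pt (i+t))`, hence `arc c' i e = M e`. `arc_add` and `arc_wrap`: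
`M a + M b ≥ arc c' i a + arc c' (i+a) b = arc c' i (n + e) + c' h = N + M e + c' h ≥ N + M e + k`.
Then `arith`. `kedn_cpow`: `kedn_exists`.
-/

set_option autoImplicit false

namespace Pool.Agent.Lib.MP_56aee0_co.KF

open Pool.Agent.Lib.MP_56aee0_co

theorem ke_bound {n q k N : ℕ} (hq : 1 ≤ q) (hn : 2 * q ≤ n) {C : Set (Fin n → ℕ)} (h0 : C.Nonempty)
    (hC : KE (cpow n q) k N C) : n * k ≤ q * N := by
  have hn0 : 0 < n := by omega
  set S : ℕ → Set ℕ := fun a => {s | ∃ c ∈ C, ∃ i, s = arc hn0 c i a} with hS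
  have hne : ∀ a, (S a).Nonempty := by
    intro a
    obtain ⟨c, hc⟩ := h0
    exact ⟨arc hn0 c 0 a, c, hc, 0, rfl⟩
  have hbd : ∀ a, a < n → ∀ s ∈ S a, s ≤ N := by
    rintro a ha s ⟨c, hc, i, rfl⟩
    rw [← (hC c hc).1]
    exact arc_le_sum hn0 c i ha
  have hbdd : ∀ a, a < n → BddAbove (S a) := fun a ha => ⟨N, fun s hs => hbd a ha s hs⟩
  have hle : ∀ a, a < n → ∀ c ∈ C, ∀ i, arc hn0 c i a ≤ sSup (S a) := by
    intro a ha c hc i
    exact le_csSup (hbdd a ha) ⟨c, hc, i, rfl⟩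
  have hatt : ∀ a, a < n → ∃ c ∈ C, ∃ i, sSup (S a) = arc hn0 c i a := by
    intro a ha
    exact Nat.sSup_mem (hne a) (hbdd a ha)
  refine arith hq hn (fun a => sSup (S a)) ?_ ?_ ?_
  · intro a ha
    exact csSup_le (hne a) (hbd a ha)
  · intro a b hab
    obtain ⟨c, hc, i, hi⟩ := hatt (a + b) hab
    obtain ⟨c', hc', hk, h1, _⟩ := force hC hc (pt hn0 (i + a))
    have hs : ∑ v, c v = ∑ v, c' v := by rw [(hC c hc).1, (hC c' hc').1]
    have h2 : arc hn0 c i (a + b) ≤ arc hn0 c' i (a + b) :=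
      arc_mono hn0 hs i (Nat.le_add_right a b) hab h1
    have h3 := arc_add hn0 c' i a b
    have h4 := hle a (by omega) c' hc' i
    have h5 := hle b (by omega) c' hc' (i + a)
    show sSup (S (a + b)) + k ≤ sSup (S a) + sSup (S b)
    rw [hi]
    omega
  · intro a b ha hb hab
    obtain ⟨c, hc, i, hi⟩ := hatt (a + b - n) (by omega)
    obtain ⟨c', hc', hk, _, h1⟩ := force hC hc (pt hn0 (i + a))
    have h2 : arc hn0 c' i (a + b - n) = arc hn0 c i (a + b - n) := by
      unfold arc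
      refine Finset.sum_congr rfl (fun t ht => ?_)
      have ht' : t ≤ a + b - n := Nat.lt_succ_iff.1 (Finset.mem_range.1 ht)
      have h3 := pt_far (q := q) hn0 hq (j := i + t) (s := a - t) (by omega) (by omega)
      have h4 : i + t + (a - t) = i + a := by omega
      rw [h4] at h3
      exact h1 _ h3.1 h3.2
    have h3 := arc_add hn0 c' i a b
    have h4 := hle a (by omega) c' hc' i
    have h5 := hle b (by omega) c' hc' (i + a)
    have h6 := arc_wrap hn0 c' i (a + b - n)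
    have h7 : n + (a + b - n) = a + b := by omega
    rw [h7, (hC c' hc').1] at h6
    show sSup (S (a + b - n)) + N + k ≤ sSup (S a) + sSup (S b)
    rw [hi]
    omega

theorem kedn_cpow {n q : ℕ} (hq : 1 ≤ q) (hn : 2 * q ≤ n) (k : ℕ) : n * k ≤ q * kedn (cpow n q) k := by
  obtain ⟨C, h0, hC⟩ := kedn_exists (cpow n q) k
  exact ke_bound hq hn h0 hC

end Pool.Agent.Lib.MP_56aee0_co.KF
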